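import Pool.Agent.Helper93.Pf.Asm
import Pool.Agent.N922.PX.Ex

/-!
# For a positive proportion of all elliptic curves over `ℚ` the parity conjecture holds over infinitely
# many number fields, of unbounded degree

Theorem. For a positive proportion of ALL elliptic curves `E / ℚ`, ordered by height, there is a set `𝒫`
of primes, which has a positive lower density in every odd residue class modulo `8`, such that the parity
conjecture holds for `E` over EVERY number field `F` which is generated by the square roots of finitely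
many (at least one) squarefree integers `m ≡ 1 mod 8`, `m ≠ 1`, with all prime divisors in `𝒫`:
`E(F) = 0` and `w(E / F) = 1`. The fields `F` are real or imaginary, of degree `2 ^ k` for every `k ≥ 1`;
for every `E` there are infinitely many fields `F` of each of these degrees.

The starting file `ParityOverTwoExtensions` proves the parity conjecture over one given field `F` for a
positive proportion of the curves, which depends on `F`. Here the order of the quantifiers is reversed:
the curve comes first, and the conjecture holds over infinitely many fields at the same time.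

The proof. The curves are the twists by `D` of `y ^ 2 = x ^ 3 + a x + b` found by the project PQ, where `D` is
the product of some primes `Q ≡ 1 mod 8` which divide `b`. (1) Let `N ≡ 1 mod 8` be such that the cubic
polynomial has no root modulo the prime divisors of `N`. Then the 2-Selmer group of the twist by `D N` is
zero as well: its classes satisfy the same local conditions in the cubic field (`Pf/Sel`, `Pf/Cn`).
(2) Points over `F` come from points over `ℚ` on the twists by products of the `m` (`Pf/Pts`). (3) The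
root number over `F` is `1` by the theorem of the project PX, as the primes over the `Q` are not stable
under the Galois group: the `m` are squares modulo `Q` (`Pf/Fld`, `Pf/Rt`). (4) The density of `𝒫` is
Chebotarev's theorem for an automorphism which permutes the three roots cyclically and fixes the
square roots of the `Q`, with prescribed action on `√-1` and `√2` (`Pf/Aut`, `Pf/Prm2`).
-/

set_option autoImplicit false
set_option linter.all false

namespace Pool.Agent.Results.MP_02f36d_nt.InfinitelyManyFields

open Filter NumberField IsDedekindDomain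
open scoped Classical

/-- The equation `y ^ 2 = x ^ 3 + A x + B` with integers `A`, `B` defines an elliptic curve, and
there is no prime `p` with `p ^ 4 ∣ A` and `p ^ 6 ∣ B`. Every elliptic curve over `ℚ` is isomorphic to
exactly one of these. -/
structure IsMinimal (A B : ℤ) : Prop where
  elliptic : 4 * A ^ 3 + 27 * B ^ 2 ≠ 0
  minimal : ∀ p : ℕ, p.Prime → ¬ ((p : ℤ) ^ 4 ∣ A ∧ (p : ℤ) ^ 6 ∣ B)

/-- The height. -/
def height (p : ℤ × ℤ) : ℤ := max (4 * |p.1| ^ 3) (27 * p.2 ^ 2)

/-- The set of all elliptic curves over `ℚ` of height at most `X`. -/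
def Curves (X : ℕ) : Set (ℤ × ℤ) := {p | IsMinimal p.1 p.2 ∧ height p ≤ X}

/-- The curve `y ^ 2 = x ^ 3 + A x + B` over `ℚ`. -/
def curve (p : ℤ × ℤ) : WeierstrassCurve ℚ := ⟨0, 0, 0, (p.1 : ℚ), (p.2 : ℚ)⟩

section defs

variable {F : Type} [Field F] [NumberField F]

/-- The coefficients of the equation are integral at the prime `v`. -/
structure IntegralAt (v : HeightOneSpectrum (𝓞 F)) (W : WeierstrassCurve F) : Prop where
  a₁ : v.valuation F W.a₁ ≤ 1
  a₂ : v.valuation F W.a₂ ≤ 1
  a₃ : v.valuation F W.a₃ ≤ 1
  a₄ : v.valuation F W.a₄ ≤ 1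
  a₆ : v.valuation F W.a₆ ≤ 1

/-- Good reduction at `v`: there is a Weierstrass equation with coefficients integral at `v` whose
discriminant is a unit at `v`. -/
def GoodReduction (v : HeightOneSpectrum (𝓞 F)) (W : WeierstrassCurve F) : Prop :=
  ∃ C : WeierstrassCurve.VariableChange F, IntegralAt v (C • W) ∧ v.valuation F (C • W).Δ = 1

/-- Split multiplicative reduction at `v`: there is a Weierstrass equation with coefficients
integral at `v` whose reduction has the singular point `(0, 0)` (`a₃`, `a₄`, `a₆` are zero modulo `v`),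
which is a node (`b₂ = a₁ ^ 2 + 4 a₂` is a unit at `v`) with tangents `y = α x` defined over the residue
field (`α ^ 2 + a₁ α - a₂` is zero modulo `v`). -/
def SplitMultiplicative (v : HeightOneSpectrum (𝓞 F)) (W : WeierstrassCurve F) : Prop :=
  ∃ C : WeierstrassCurve.VariableChange F, IntegralAt v (C • W) ∧
    v.valuation F (C • W).a₃ < 1 ∧ v.valuation F (C • W).a₄ < 1 ∧ v.valuation F (C • W).a₆ < 1 ∧
    v.valuation F (C • W).b₂ = 1 ∧
    ∃ α : F, v.valuation F α ≤ 1 ∧
      v.valuation F (α ^ 2 + (C • W).a₁ * α - (C • W).a₂) < 1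

variable (F)

/-- The properties of the local root numbers `w(E / F_v)` at the primes `v` of `F`, for an elliptic
curve `E` over `ℚ`, which we use: they are signs, `1` for good reduction, `-1` for split multiplicative
reduction, and the same for conjugate primes. -/
structure LocalRootNumbers (E : WeierstrassCurve ℚ) (w : HeightOneSpectrum (𝓞 F) → ℤ) :
    Prop where
  sign : ∀ v, w v = 1 ∨ w v = -1
  good : ∀ v, GoodReduction v (E.baseChange F) → w v = 1
  split : ∀ v, SplitMultiplicative v (E.baseChange F) → w v = -1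
  conj : ∀ (σ : F ≃ₐ[ℚ] F) (v v' : HeightOneSpectrum (𝓞 F)),
    (∀ x : F, v'.valuation F x = v.valuation F (σ x)) → w v' = w v

/-- The global root number: the product of the local root numbers at all places; it is `-1` at
every infinite place. -/
noncomputable def rootNumber (w : HeightOneSpectrum (𝓞 F) → ℤ) : ℤ :=
  (-1) ^ Nat.card (InfinitePlace F) * ∏ᶠ v, w v

/-- The group `E(F)`. -/
def Pts (p : ℤ × ℤ) : Type := ((curve p).baseChange F).toAffine.Point

noncomputable instance instPts (p : ℤ × ℤ) : AddCommGroup (Pts F p) :=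
  (inferInstance : AddCommGroup ((curve p).baseChange F).toAffine.Point)

/-- The rank of `E(F)`. -/
noncomputable def rank (p : ℤ × ℤ) : ℕ := Module.finrank ℤ (Pts F p)

/-- The parity conjecture holds for `E` over `F`, with `E(F) = 0` and root number `1`: for every
system of local root numbers (such systems exist, and there are only finitely many primes with
`w v ≠ 1`) `(-1) ^ rank = w(E / F)`. -/
structure ParityHolds (p : ℤ × ℤ) : Prop where
  zero : Subsingleton (Pts F p)
  exist : ∃ w, LocalRootNumbers F (curve p) w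
  finite : ∀ w, LocalRootNumbers F (curve p) w → {v | w v ≠ 1}.Finite
  one : ∀ w, LocalRootNumbers F (curve p) w → rootNumber F w = 1
  parity : ∀ w, LocalRootNumbers F (curve p) w → (-1) ^ rank F p = rootNumber F w

end defs

section tr

variable {F : Type} [Field F] [NumberField F]

theorem int_iff (v : HeightOneSpectrum (𝓞 F)) (W : WeierstrassCurve F) :
    IntegralAt v W ↔ Pool.Agent.N922.PX.IntegralAt v W :=
  ⟨fun h => ⟨h.1, h.2, h.3, h.4, h.5⟩, fun h => ⟨h.1, h.2, h.3, h.4, h.5⟩⟩

theorem good_iff (v : HeightOneSpectrum (𝓞 F)) (W : WeierstrassCurve F) :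
    GoodReduction v W ↔ Pool.Agent.N922.PX.GoodReduction v W := by
  unfold GoodReduction Pool.Agent.N922.PX.GoodReduction
  simp only [int_iff]

theorem split_iff (v : HeightOneSpectrum (𝓞 F)) (W : WeierstrassCurve F) :
    SplitMultiplicative v W ↔ Pool.Agent.N922.PX.SplitMultiplicative v W := by
  unfold SplitMultiplicative Pool.Agent.N922.PX.SplitMultiplicative
  simp only [int_iff]

theorem local_iff (p : ℤ × ℤ) (w : HeightOneSpectrum (𝓞 F) → ℤ) :
    LocalRootNumbers F (curve p) w ↔
      Pool.Agent.N922.PX.LocalRootNumbers F (Pool.Agent.N922.PX.curve p) w := by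
  have e : curve p = Pool.Agent.N922.PX.curve p := rfl
  rw [e]
  constructor
  · rintro ⟨h1, h2, h3, h4⟩
    exact ⟨h1, fun v h => h2 v ((good_iff v _).2 h), fun v h => h3 v ((split_iff v _).2 h), h4⟩
  · rintro ⟨h1, h2, h3, h4⟩
    exact ⟨h1, fun v h => h2 v ((good_iff v _).1 h), fun v h => h3 v ((split_iff v _).1 h), h4⟩

end tr

theorem crv_iff (X : ℕ) (p : ℤ × ℤ) : Pool.Agent.N922.PQ.Crv X p.1 p.2 ↔ p ∈ Curves X := by
  constructor
  · rintro ⟨h1, h2, h3, h4⟩
    exact ⟨⟨h1, h2⟩, max_le h3 h4⟩
  · rintro ⟨⟨h1, h2⟩, h3⟩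
    exact ⟨h1, h2, (le_max_left _ _).trans h3, (le_max_right _ _).trans h3⟩

theorem nonempty {X : ℕ} (hX : 27 ≤ X) : ((1, 1) : ℤ × ℤ) ∈ Curves X := by
  refine ⟨⟨by norm_num, ?_⟩, ?_⟩
  · rintro p hp ⟨h, -⟩
    have h1 : ((p : ℤ)) ∣ 1 := (dvd_pow_self (p : ℤ) (by norm_num)).trans h
    have h2 : p ∣ 1 := by exact_mod_cast h1
    exact hp.one_lt.ne' (Nat.dvd_one.1 h2)
  · have : height ((1, 1) : ℤ × ℤ) = 27 := by
      simp [height]
    rw [this]
    exact_mod_cast hX

/-- `F` is generated over `ℚ` by square roots of the integers `m ∈ S`. -/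
def IsGenerated (F : Type) [Field F] (S : Finset ℤ) : Prop :=
  ∃ r : ℤ → F, (∀ m ∈ S, r m ^ 2 = (m : F)) ∧ ∀ K : Subfield F, (∀ m ∈ S, r m ∈ K) → K = ⊤

/-- The squarefree integers `m ≡ 1 mod 8` (positive or negative), `m ≠ 1`, with all prime divisors in
`P`. -/
def Radicands (P : Set ℕ) : Set ℤ :=
  {m | Squarefree m ∧ m ≠ 1 ∧ m % 8 = 1 ∧ ∀ l : ℕ, l.Prime → (l : ℤ) ∣ m → l ∈ P}

/-- `P` is a set of primes which has a positive lower density in every odd residue class `r`
modulo `8`: there is `κ > 0` such that for all large `Y` at least `κ π(Y)` of the primes up to `Y` are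
in `P` and congruent to `r` modulo `8`. -/
structure IsDense (P : Set ℕ) : Prop where
  prime : ∀ l ∈ P, l.Prime
  dense : ∀ r : ℕ, r % 2 = 1 → r < 8 → ∃ κ : ℝ, 0 < κ ∧ ∀ᶠ Y : ℕ in atTop,
    κ * (Nat.primeCounting Y : ℝ) ≤ ({l ∈ P | l % 8 = r ∧ l ≤ Y}.ncard : ℝ)

/-- The parity conjecture holds for `E` over every number field which is generated by the square
roots of the elements of a finite nonempty set of radicands, for some dense set of primes. -/
def ParityOverManyFields (p : ℤ × ℤ) : Prop :=
  ∃ P : Set ℕ, IsDense P ∧ ∀ S : Finset ℤ, S.Nonempty → (∀ m ∈ S, m ∈ Radicands P) →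
    ∀ (F : Type) [Field F] [NumberField F], IsGenerated F S → ParityHolds F p

theorem sub_of {F : Type} [Field F] [NumberField F] {p : ℤ × ℤ}
    (h : ∀ x y : F, y ^ 2 ≠ x ^ 3 + (p.1 : F) * x + (p.2 : F)) : Subsingleton (Pts F p) := by
  have key : ∀ P : ((curve p).baseChange F).toAffine.Point, P = 0 := by
    rintro (_ | ⟨x, y, hxy⟩)
    · rfl
    · exfalso
      have h1 := hxy.1
      rw [WeierstrassCurve.Affine.equation_iff] at h1
      apply h x y
      simp [curve, WeierstrassCurve.baseChange] at h1
      linear_combination h1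
  exact ⟨fun P Q => (key P).trans (key Q).symm⟩

/-- The main step. -/
theorem many_of {p : ℤ × ℤ} (hp : 4 * p.1 ^ 3 + 27 * p.2 ^ 2 ≠ 0) {a b : ℤ} {J : Finset ℤ}
    (hB : Pool.Agent.Helper93.Pf.Base p a b J) : ParityOverManyFields p := by
  refine ⟨Pool.Agent.Helper93.Pf.PP a b J, ⟨fun l hl => hl.1,
    fun r hr hr8 => Pool.Agent.Helper93.Pf.density hB r hr hr8⟩, ?_⟩
  rintro S hne hS F _ _ ⟨r, hr, hgen⟩
  have hM : Pool.Agent.Helper93.Pf.MQ F S r := ⟨hr, hgen⟩
  have hA := Pool.Agent.Helper93.Pf.adm_of hB hne hS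
  have k1 : Subsingleton (Pts F p) := sub_of (Pool.Agent.Helper93.Pf.pts_F hB hM hA)
  have k2 : rank F p = 0 := Module.finrank_zero_of_subsingleton
  have k3 : ∀ w, LocalRootNumbers F (curve p) w → rootNumber F w = 1 := fun w h6 =>
    Pool.Agent.Helper93.Pf.root_F hB hM hA ((local_iff p w).1 h6)
  have k4 : ∀ w, LocalRootNumbers F (curve p) w → {v | w v ≠ 1}.Finite := by
    intro w h6
    have hc : (2 * (4 * p.1 ^ 3 + 27 * p.2 ^ 2) : ℤ) ≠ 0 := mul_ne_zero two_ne_zero hp
    obtain ⟨r1, r2, -⟩ := Pool.Agent.N878.PX.t_rd F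
    refine (r2 _ hc).subset fun v hv h7 => hv ?_
    exact h6.good v ((good_iff v _).2 (r1 p v h7))
  obtain ⟨w, hw'⟩ := Pool.Agent.N922.PX.exists_local F (Pool.Agent.N922.PX.curve p)
  refine ⟨k1, ⟨w, (local_iff p w).2 hw'⟩, k4, k3, fun w h6 => ?_⟩
  rw [k2, pow_zero, k3 w h6]

/-- There is `c > 0` such that for all large `X` at least `c` times the number of all elliptic curves `E`
over `ℚ` of height at most `X` have the following property: there is a set `𝒫` of primes, of positive
lower density in every odd residue class modulo `8`, such that for every finite nonempty set `S` of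
squarefree integers `m ≡ 1 mod 8`, `m ≠ 1`, with all prime divisors in `𝒫` and every number field `F`
generated by the square roots of the `m ∈ S`, the parity conjecture `(-1) ^ rk E(F) = w(E / F)` holds, with
`E(F) = 0` and `w(E / F) = 1`. -/
theorem result :
    (∀ X : ℕ, (Curves X).Finite) ∧
    ∃ c : ℝ, 0 < c ∧ ∀ᶠ X : ℕ in atTop,
      0 < (Curves X).ncard ∧
      c * ((Curves X).ncard : ℝ) ≤ (({p ∈ Curves X | ParityOverManyFields p}).ncard : ℝ) := by
  have hset : ∀ X : ℕ, Curves X = {p : ℤ × ℤ | Pool.Agent.N922.PQ.Crv X p.1 p.2} := by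
    intro X
    ext p
    exact (crv_iff X p).symm
  have hfin : ∀ X : ℕ, (Curves X).Finite := fun X => by
    rw [hset]
    exact Pool.Agent.N922.PQ.crv_fin X
  refine ⟨hfin, ?_⟩
  obtain ⟨c, hc, X₀, h⟩ := Pool.Agent.Helper93.Pf.finalB
  refine ⟨c, hc, ?_⟩
  filter_upwards [eventually_ge_atTop (max X₀ 27)] with X hX
  refine ⟨(Set.ncard_pos (hfin X)).2 ⟨_, nonempty ((le_max_right _ _).trans hX)⟩, ?_⟩
  have h4 := (h X ((le_max_left _ _).trans hX)).2
  rw [← hset] at h4
  refine h4.trans ?_
  refine Nat.cast_le.2 (Set.ncard_le_ncard ?_ ((hfin X).subset fun p hp => hp.1))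
  rintro p ⟨hp, a, b, J, hB⟩
  exact ⟨(crv_iff X p).1 hp, many_of hp.disc hB⟩

end Pool.Agent.Results.MP_02f36d_nt.InfinitelyManyFields
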