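import Pool.Agent.Helper93.Pk.FinE

/-!
# The parity conjecture over infinitely many extensions of a number field at the same time

Let `K` be any number field.

Theorem. For a positive proportion of ALL elliptic curves `E / K`, given by minimal equations
`y ^ 2 = x ^ 3 + A x + B` and ordered by height, there are a finite set `Q` of rational primes and a set `P`
of rational primes such that `E` satisfies the parity conjecture `(-1) ^ rk E(M) = w(E / M)`,
unconditionally, over EVERY finite Galois extension `M / K` of degree a power of two with these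
properties (we call `M` admissible for `Q` and `P`): the Galois group is not cyclic, `M / K` is unramified at
the infinite places, the primes of `K` over `2` and over `Q` split completely in `M`, and the primes which
ramify in `M / K` are over `P`. More precisely `E(M)` is finite of odd order and `w(E / M) = 1`. There are
infinitely many of these fields, of unbounded degree: the set `P'` of the `l` in `P` with `l ≡ 1` modulo `8`
which are squares modulo all primes in `Q` has positive lower density in the set of all primes, and for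
every finite subset `T` of `P'` with at least two elements the field generated over `K` by the square roots
of the elements of `T` is admissible, of degree `2 ^ #T` over `K`.

The local root numbers `w(E / M_v)` are signs; they are `1` if `E` has good reduction at `v`; and since `E`
is defined over `K` they are the same for primes of `M` which are conjugate over `K`. At the infinite
places they are `-1`. These properties are all that we use.

The proof. (1) The 2-descent over `K` of the project PF (`MP_7cad78_nt.RankZeroEveryNumberField`) gives, for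
most `f = x ^ 3 + A x + B` in a family of positive density, a subset `J` of a finite set of rational primes
such that a Selmer group over `K` of the twist of the curve by the product of the primes in `J`, with
weaker conditions than the usual ones, is zero. This does not depend on `M`; `Q` is `J` and `P` is
the set of the primes `p` (not in `J`, unramified in `K`) such that `f` is irreducible modulo every prime of
`K` over `p`. (2) Let `M` be admissible, `L = K(θ)` for a zero `θ` of `f`. As `M / K` is unramified outside
`P`, so is `L M / L` (inertia groups restrict), and `L` is dense in `L M` at the primes over `J`. With this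
the classes of the 2-Selmer group over `M` which are invariant under the 2-group `Gal(M / K)` come from
`L` and satisfy the weaker conditions over `K` (at the primes over `P`, where nothing is known, the norm
is used: there is only one prime of `L` over such a prime of `K`, of odd degree). So there is no nonzero
invariant class, and the Selmer group over `M` is zero. (3) In the product of the local root numbers only
the primes `v` matter which are stable under `Gal(M / K)`; such a prime is ramified, as the group is not
cyclic, and so the curve has good reduction there. (4) The primes. The Frobenius `φ` in the Galois closure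
`F / ℚ` of `L(√-1, √2, √q : q ∈ J)` at a prime over a suitable small rational prime `p`, modulo which `f`
is irreducible, permutes the zeros of `f` transitively (some power of `φ` which fixes `K`); the same is true
for the conjugates of `φ ^ 2`, as the number of the zeros is odd. By the theorem of Chebotarev there are
many `l` with Frobenius `φ ^ 2`, and they are in `P'`.

The starting file `MP_02f36d_nt.ParityOverTwoExtensions` is the case `K = ℚ` for one given field `M`, the
curves depend on `M`. New: any `K`, the curve comes first, and one curve has infinitely many fields `M`.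
-/

set_option autoImplicit false
set_option linter.all false

namespace Pool.Agent.Results.MP_02f36d_nt.InfinitelyManyFieldsOverK

open Filter NumberField IsDedekindDomain
open scoped Classical

section family

variable (K : Type) [Field K] [NumberField K]

/-- The minimal equations of elliptic curves over `K`: pairs of integers `(A, B)` of `K` with
`4 A ^ 3 + 27 B ^ 2 ≠ 0` for which no nonzero prime ideal `𝔭` satisfies both `A ∈ 𝔭 ^ 4` and
`B ∈ 𝔭 ^ 6`. -/
def Family : Set (𝓞 K × 𝓞 K) :=
  {p | 4 * p.1 ^ 3 + 27 * p.2 ^ 2 ≠ 0 ∧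
    ∀ 𝔭 : Ideal (𝓞 K), 𝔭.IsPrime → 𝔭 ≠ ⊥ → ¬ (p.1 ∈ 𝔭 ^ 4 ∧ p.2 ∈ 𝔭 ^ 6)}

variable {K}

/-- The height `max_σ max (4 |σ A|³, 27 |σ B|²)`, over the embeddings `σ : K → ℂ`. -/
noncomputable def height (p : 𝓞 K × 𝓞 K) : ℝ :=
  ⨆ σ : K →+* ℂ, max (4 * ‖σ (p.1 : K)‖ ^ 3) (27 * ‖σ (p.2 : K)‖ ^ 2)

variable (K)

/-- The members of the family of height at most `X`. -/
def Curves (X : ℝ) : Set (𝓞 K × 𝓞 K) := {p ∈ Family K | height p ≤ X}

variable {K}

/-- The curve `y ^ 2 = x ^ 3 + A x + B` over `K`. -/
def curve (p : 𝓞 K × 𝓞 K) : WeierstrassCurve K := ⟨0, 0, 0, (p.1 : K), (p.2 : K)⟩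

end family

section defs

variable {K : Type} [Field K] [NumberField K] {M : Type} [Field M] [NumberField M] [Algebra K M]

/-- Good reduction at the prime `v` of `M`: there is a Weierstrass equation with coefficients integral
at `v` whose discriminant is a unit at `v`. -/
def GoodReduction (v : HeightOneSpectrum (𝓞 M)) (W : WeierstrassCurve M) : Prop :=
  ∃ C : WeierstrassCurve.VariableChange M,
    v.valuation M (C • W).a₁ ≤ 1 ∧ v.valuation M (C • W).a₂ ≤ 1 ∧ v.valuation M (C • W).a₃ ≤ 1 ∧
    v.valuation M (C • W).a₄ ≤ 1 ∧ v.valuation M (C • W).a₆ ≤ 1 ∧ v.valuation M (C • W).Δ = 1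

variable (M)

/-- The properties of the local root numbers `w(E / M_v)` at the primes `v` of `M`, for an elliptic
curve `E` over `K`, which we use: they are signs, `1` for good reduction, and the same for primes which
are conjugate over `K`. -/
structure LocalRootNumbers (E : WeierstrassCurve K) (w : HeightOneSpectrum (𝓞 M) → ℤ) :
    Prop where
  sign : ∀ v, w v = 1 ∨ w v = -1
  good : ∀ v, GoodReduction v (E.baseChange M) → w v = 1
  conj : ∀ (σ : M ≃ₐ[K] M) (v v' : HeightOneSpectrum (𝓞 M)),
    (∀ x : M, v'.valuation M x = v.valuation M (σ x)) → w v' = w v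

/-- The global root number: the product of the local root numbers at all places; it is `-1` at
every infinite place. -/
noncomputable def rootNumber (w : HeightOneSpectrum (𝓞 M) → ℤ) : ℤ :=
  (-1) ^ Nat.card (InfinitePlace M) * ∏ᶠ v, w v

/-- The group `E(M)`. -/
abbrev Points (p : 𝓞 K × 𝓞 K) : Type := ((curve p).baseChange M).toAffine.Point

/-- The rank of `E(M)`. -/
noncomputable def rank (p : 𝓞 K × 𝓞 K) : ℕ := Module.finrank ℤ (Points M p)

/-- The parity conjecture holds for `E` over `M`, with a finite group `E(M)` of odd order and root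
number `1`: for every system of local root numbers `(-1) ^ rank = w(E / M)`. -/
structure ParityHolds (p : 𝓞 K × 𝓞 K) : Prop where
  fin : Finite (Points M p)
  odd : Odd (Nat.card (Points M p))
  finite : ∀ w, LocalRootNumbers M (curve p) w → {v | w v ≠ 1}.Finite
  one : ∀ w, LocalRootNumbers M (curve p) w → rootNumber M w = 1
  parity : ∀ w, LocalRootNumbers M (curve p) w → (-1) ^ rank M p = rootNumber M w

end defs

section fields

/-- The number field `M ⊇ K` is admissible for the sets `Q` and `P` of rational primes: `M / K` is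
Galois of degree `2 ^ n` with a Galois group which is not cyclic, it is unramified at the infinite places,
the primes `u` of `K` over `2` and over the primes in `Q` split completely in `M` (`M` has an embedding over
`K` in the completion `K_u`), and every prime of `M` which is ramified over `K` is over a prime in `P`. -/
structure Admissible (K M : Type) [Field K] [NumberField K] [Field M] [NumberField M] [Algebra K M]
    (Q : Finset ℕ) (P : Set ℕ) : Prop where
  galois : IsGalois K M
  degree : ∃ n : ℕ, Module.finrank K M = 2 ^ n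
  noncyclic : ¬ IsCyclic (M ≃ₐ[K] M)
  infinite : IsUnramifiedAtInfinitePlaces K M
  split : ∀ u : HeightOneSpectrum (𝓞 K),
    ((2 : 𝓞 K) ∈ u.asIdeal ∨ ∃ q ∈ Q, (q : 𝓞 K) ∈ u.asIdeal) →
    Nonempty (M →ₐ[K] u.adicCompletion K)
  ramified : ∀ w : HeightOneSpectrum (𝓞 M), w.asIdeal.ramificationIdx (𝓞 K) ≠ 1 →
    ∃ p ∈ P, (p : 𝓞 M) ∈ w.asIdeal

/-- `M` is generated over `K` by square roots `r l` of the elements `l` of `T`. -/
structure GeneratedByRoots (K : Type) [Field K] {M : Type} [Field M] [Algebra K M] (T : Finset ℕ)
    (r : ℕ → M) : Prop where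
  square : ∀ l ∈ T, r l ^ 2 = (l : M)
  generate : IntermediateField.adjoin K (r '' (T : Set ℕ)) = ⊤

/-- The `l` in `P` which are `1` modulo `8` and squares modulo all `q` in `Q`. -/
def Special (Q : Finset ℕ) (P : Set ℕ) : Set ℕ := {l ∈ P | l % 8 = 1 ∧ ∀ q ∈ Q, IsSquare (l : ZMod q)}

/-- The set `A` of primes has positive lower density in the set of all primes. -/
def PositiveDensity (A : Set ℕ) : Prop :=
  ∃ κ : ℝ, 0 < κ ∧ ∀ᶠ Y : ℕ in atTop,
    κ * (Nat.primeCounting Y : ℝ) ≤ (Set.ncard {l : ℕ | l ∈ A ∧ l ≤ Y} : ℝ)

/-- The curve satisfies the parity conjecture over all admissible extensions of `K`, for some sets `Q`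
and `P` of primes, and these include the fields generated by square roots of at least two elements of the
set `Special Q P`, which has positive density. -/
def ParityOverManyFields {K : Type} [Field K] [NumberField K] (p : 𝓞 K × 𝓞 K) : Prop :=
  ∃ (Q : Finset ℕ) (P : Set ℕ), (∀ q ∈ Q, q.Prime) ∧ (∀ l ∈ P, l.Prime) ∧
    PositiveDensity (Special Q P) ∧
    (∀ (M : Type) [Field M] [NumberField M] [Algebra K M] (T : Finset ℕ) (r : ℕ → M),
      (T : Set ℕ) ⊆ Special Q P → 2 ≤ T.card → GeneratedByRoots K T r →
      Admissible K M Q P ∧ Module.finrank K M = 2 ^ T.card) ∧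
    ∀ (M : Type) [Field M] [NumberField M] [Algebra K M], Admissible K M Q P → ParityHolds M p

end fields

section tr

variable {K : Type} [Field K] [NumberField K] {M : Type} [Field M] [NumberField M] [Algebra K M]

theorem crv_iff (X : ℝ) (p : 𝓞 K × 𝓞 K) :
    Pool.Agent.N783.PF.Crv X p ↔ p ∈ Curves K X := by
  have hb : BddAbove (Set.range fun σ : K →+* ℂ =>
      max (4 * ‖σ (p.1 : K)‖ ^ 3) (27 * ‖σ (p.2 : K)‖ ^ 2)) := Set.Finite.bddAbove (Set.finite_range _)
  constructor
  · rintro ⟨h1, h2, h3⟩
    refine ⟨⟨h1, h2⟩, ciSup_le fun σ => max_le (h3 σ).1 (h3 σ).2⟩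
  · rintro ⟨⟨h1, h2⟩, h3⟩
    refine ⟨h1, h2, fun σ => ?_⟩
    have h4 := (le_ciSup hb σ).trans h3
    exact ⟨(le_max_left _ _).trans h4, (le_max_right _ _).trans h4⟩

theorem rank_zero (p : 𝓞 K × 𝓞 K) (h : Finite (Points M p)) : rank M p = 0 := by
  unfold rank
  haveI := h
  refine Module.finrank_eq_zero_of_rank_eq_zero ?_
  rw [rank_eq_zero_iff]
  intro x
  refine ⟨(Nat.card (Points M p) : ℤ), by exact_mod_cast Nat.card_pos.ne', ?_⟩
  rw [natCast_zsmul]
  exact card_nsmul_eq_zero'

/-- Good reduction at the primes not over `2` modulo which the polynomial is separable. -/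
theorem good_red (p : 𝓞 K × 𝓞 K) (v : HeightOneSpectrum (𝓞 M)) (h2 : (2 : 𝓞 M) ∉ v.asIdeal)
    (hs : (Pool.Agent.N783.PF.rd v.asIdeal
      (Pool.Agent.H25P.fM M (Pool.Agent.N61.PF.pol p.1 p.2))).Separable) :
    GoodReduction v ((curve p).baseChange M) := by
  letI : Field (𝓞 M ⧸ v.asIdeal) := @Ideal.Quotient.field _ _ v.asIdeal v.isMaximal
  set a : 𝓞 M := algebraMap (𝓞 K) (𝓞 M) p.1 with ha
  set b : 𝓞 M := algebraMap (𝓞 K) (𝓞 M) p.2 with hb
  have h2' : (2 : 𝓞 M ⧸ v.asIdeal) ≠ 0 := by
    intro h0
    apply h2
    rw [← Ideal.Quotient.eq_zero_iff_mem, map_ofNat]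
    exact h0
  have e : Pool.Agent.N783.PF.rd v.asIdeal
      (Pool.Agent.H25P.fM M (Pool.Agent.N61.PF.pol p.1 p.2)) =
      Polynomial.X ^ 3 + Polynomial.C (Ideal.Quotient.mk v.asIdeal a) * Polynomial.X +
        Polynomial.C (Ideal.Quotient.mk v.asIdeal b) := by
    unfold Pool.Agent.N783.PF.rd Pool.Agent.H25P.fM Pool.Agent.N61.PF.pol
    simp only [Polynomial.map_add, Polynomial.map_mul, Polynomial.map_pow, Polynomial.map_X,
      Polynomial.map_C, ha, hb]
  rw [e] at hs
  have hd := Pool.Agent.H25P.disc_of_sep h2' hs
  have hd' : 4 * a ^ 3 + 27 * b ^ 2 ∉ v.asIdeal := by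
    intro h0
    apply hd
    rw [← Ideal.Quotient.eq_zero_iff_mem] at h0
    rw [← h0]
    simp only [map_add, map_mul, map_pow, map_ofNat]
  have hint : ∀ x : 𝓞 M, v.valuation M (x : M) ≤ 1 := v.valuation_le_one
  have hunit : ∀ x : 𝓞 M, x ∉ v.asIdeal → v.valuation M (x : M) = 1 := by
    intro x hx
    refine le_antisymm (hint x) (not_lt.1 fun h => hx ?_)
    exact (v.valuation_lt_one_iff_mem (K := M) x).1 h
  have ha' : algebraMap K M (p.1 : K) = (a : M) := rfl
  have hb' : algebraMap K M (p.2 : K) = (b : M) := rfl
  have h1 : ((curve p).baseChange M).a₁ = 0 := by simp [curve, WeierstrassCurve.baseChange]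
  have h2'' : ((curve p).baseChange M).a₂ = 0 := by simp [curve, WeierstrassCurve.baseChange]
  have h3 : ((curve p).baseChange M).a₃ = 0 := by simp [curve, WeierstrassCurve.baseChange]
  have h4 : ((curve p).baseChange M).a₄ = (a : M) := by
    simp [curve, WeierstrassCurve.baseChange, ha']
  have h6 : ((curve p).baseChange M).a₆ = (b : M) := by
    simp [curve, WeierstrassCurve.baseChange, hb']
  have hΔ : ((curve p).baseChange M).Δ =
      ((-(2 ^ 4 * (4 * a ^ 3 + 27 * b ^ 2)) : 𝓞 M) : M) := by
    rw [WeierstrassCurve.Δ, WeierstrassCurve.b₂, WeierstrassCurve.b₄, WeierstrassCurve.b₆,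
      WeierstrassCurve.b₈, h1, h2'', h3, h4, h6]
    have e5 : algebraMap (𝓞 M) M (-(2 ^ 4 * (4 * a ^ 3 + 27 * b ^ 2))) =
        -(2 ^ 4 * (4 * (a : M) ^ 3 + 27 * (b : M) ^ 2)) := by
      simp only [map_neg, map_mul, map_add, map_pow, map_ofNat]
    refine Eq.trans ?_ e5.symm
    ring
  refine ⟨1, ?_⟩
  rw [one_smul, h1, h2'', h3, h4, h6, hΔ]
  refine ⟨by simp, by simp, by simp, hint a, hint b, hunit _ ?_⟩
  intro h0
  rw [Ideal.neg_mem_iff] at h0
  rcases v.isPrime.mem_or_mem h0 with h | h
  · exact h2 (v.isPrime.mem_of_pow_mem _ h)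
  · exact hd' h

end tr

theorem adm_iff {K M : Type} [Field K] [NumberField K] [Field M] [NumberField M] [Algebra K M]
    {Q : Finset ℕ} {P : Set ℕ} : Admissible K M Q P ↔ Pool.Agent.Helper93.Pk.Adm K M Q P :=
  ⟨fun h => ⟨h.1, h.2, h.3, h.4, h.5, h.6⟩, fun h => ⟨h.1, h.2, h.3, h.4, h.5, h.6⟩⟩

theorem parity_of {K : Type} [Field K] [NumberField K] {M : Type} [Field M] [NumberField M]
    [Algebra K M] {p : 𝓞 K × 𝓞 K} (hg : Pool.Agent.H25P.GoodE K M p) : ParityHolds M p := by
  have key : ∀ W : WeierstrassCurve M,
      (Pool.Agent.N874.PP.sW (Pool.Agent.H25P.up' M p.1)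
        (Pool.Agent.H25P.up' M p.2)).baseChange M = W →
      Finite W.toAffine.Point ∧ Odd (Nat.card W.toAffine.Point) := by
    rintro W rfl
    exact ⟨hg.fin, hg.odd⟩
  have e : (Pool.Agent.N874.PP.sW (Pool.Agent.H25P.up' M p.1)
      (Pool.Agent.H25P.up' M p.2)).baseChange M = (curve p).baseChange M := by
    apply WeierstrassCurve.ext
    · simp [Pool.Agent.N874.PP.sW, curve, WeierstrassCurve.baseChange]
    · simp [Pool.Agent.N874.PP.sW, curve, WeierstrassCurve.baseChange]
    · simp [Pool.Agent.N874.PP.sW, curve, WeierstrassCurve.baseChange]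
    · simp [Pool.Agent.N874.PP.sW, curve, WeierstrassCurve.baseChange]
      rfl
    · simp [Pool.Agent.N874.PP.sW, curve, WeierstrassCurve.baseChange]
      rfl
  obtain ⟨k1, k2⟩ := key _ e
  have tr : ∀ w, LocalRootNumbers M (curve p) w → Pool.Agent.H25P.Signs K
      (Pool.Agent.H25P.fM M (Pool.Agent.N61.PF.pol p.1 p.2)) w := fun w hw =>
    ⟨hw.sign, fun v h5 h6 => hw.good v (good_red p v h5 h6), hw.conj⟩
  have k3 : ∀ w, LocalRootNumbers M (curve p) w → rootNumber M w = 1 := by
    intro w hw
    have h5 := hg.root w (tr w hw) 1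
    rw [one_mul] at h5
    exact h5
  refine ⟨k1, k2, fun w hw => ?_, k3, fun w hw => ?_⟩
  · exact (tr w hw).finite ((Pool.Agent.N61.PF.pol_monic p.1 p.2).map _) hg.irr
  · rw [k3 w hw, rank_zero p k1, pow_zero]

/-- Let `K` be a number field. There is `c > 0` such that for all large `X` at least `c` times the
number of all elliptic curves `E` over `K` (minimal equations) of height at most `X` have the following
property. There are a finite set `Q` of primes and a set `P` of primes such that for every extension `M / K`
which is admissible for `Q` and `P` the group `E(M)` is finite of odd order, `w(E / M) = 1`, and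
`(-1) ^ rk E(M) = w(E / M)`. The set `P'` of the `l` in `P` with `l ≡ 1` modulo `8` which are squares modulo
all primes in `Q` has positive density, and every field generated over `K` by the square roots of the
elements of a finite subset `T` of `P'` with at least two elements is admissible and has degree `2 ^ #T`
over `K`. -/
theorem result (K : Type) [Field K] [NumberField K] :
    (∀ X : ℝ, (Curves K X).Finite) ∧
    ∃ c : ℝ, 0 < c ∧ ∀ᶠ X : ℝ in atTop,
      0 < (Curves K X).ncard ∧
      c * ((Curves K X).ncard : ℝ) ≤ (({p ∈ Curves K X | ParityOverManyFields p}).ncard : ℝ) := by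
  have hset : ∀ X : ℝ, Curves K X = {p : 𝓞 K × 𝓞 K | Pool.Agent.N783.PF.Crv X p} := by
    intro X
    ext p
    exact (crv_iff X p).symm
  obtain ⟨c, hc, Y₀, h⟩ := Pool.Agent.Helper93.Pk.finE K
  have hfin : ∀ X : ℝ, (Curves K X).Finite := fun X => by
    rw [hset]
    exact (h X).1
  refine ⟨hfin, c, hc, ?_⟩
  filter_upwards [eventually_ge_atTop Y₀] with X hX
  obtain ⟨h3, h4⟩ := (h X).2 hX
  rw [← hset] at h3 h4
  refine ⟨h3, h4.trans ?_⟩
  have hsub : {p : 𝓞 K × 𝓞 K | Pool.Agent.N783.PF.Crv X p ∧ Pool.Agent.Helper93.Pk.ManyE K p} ⊆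
      {p ∈ Curves K X | ParityOverManyFields p} := by
    rintro p ⟨hp, Q, P, g1, g2, g3, g4, g5⟩
    refine ⟨(crv_iff X p).1 hp, Q, P, g1, g2, g3, fun M _ _ _ T r hT h2 hr => ?_,
      fun M _ _ _ A => parity_of (g5 M (adm_iff.1 A))⟩
    obtain ⟨k1, k2⟩ := g4 M T r hT h2 ⟨hr.square, hr.generate⟩
    exact ⟨adm_iff.2 k1, k2⟩
  exact_mod_cast Set.ncard_le_ncard hsub ((hfin X).subset fun p hp => hp.1)

end Pool.Agent.Results.MP_02f36d_nt.InfinitelyManyFieldsOverK
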