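import Pool.Agent.H25C.FinE

/-!
# The parity conjecture over all cyclic 2-extensions in a class (in particular over quadratic
# extensions) of a number field, for a positive proportion of all elliptic curves over the number field

Let `K` be any number field. For a pair `(A, B)` of integers of `K` and a finite set `S` of odd prime
numbers let `𝓔(A, B, S)` be the class of the Galois extensions `M / K` of degree `2 ^ n` (`n` arbitrary)
such that

* the primes over `2` and the primes over the elements of `S` split completely in `M`,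
* `M / K` is unramified at the infinite places,
* `x ^ 3 + A x + B` is irreducible modulo every prime of `K` which is ramified in `M`.

Let `M₀ / K` be any Galois extension of degree `2 ^ n` in which the primes over `2` split completely and
which is unramified at the infinite places (the ramification elsewhere is arbitrary), and `N₀ ∈ ℕ`.

Theorem. There is a finite set `S` of prime numbers `> N₀` such that, among ALL elliptic curves
`E : y ^ 2 = x ^ 3 + A x + B` over `K`, given by minimal equations and ordered by height, a positive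
proportion satisfies: `x ^ 3 + A x + B` is irreducible modulo all primes over the prime numbers `≤ N₀`,
the given extension `M₀` is in `𝓔(A, B, S)`, and for EVERY cyclic extension `M ≠ K` in `𝓔(A, B, S)`, in
particular for every quadratic extension `M = K(√d)` in `𝓔(A, B, S)`, the curve satisfies the parity
conjecture over `M`, unconditionally: `(-1) ^ rk E(M) = w(E / M)`. More precisely `E(M)` is finite of odd
order and `w(E / M) = 1`.

(The class contains every Galois subextension of `M₀ / K`, and `M₀` may be the compositum of any finite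
number of given quadratic extensions: the curve does not depend on `M`.)

The local root numbers `w(E / M_v)` are signs; they are `1` if `E` has good reduction at `v`, `-1` if `E`
has split multiplicative reduction at `v`, and since `E` is defined over `K` they are the same for primes
of `M` which are conjugate over `K`, for which the completions are isomorphic over `K`. At the infinite
places they are `-1`. These properties are all that we use: the theorem holds for every function `w` with
these properties, in particular for the local root numbers defined by the local constants.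

The proof. The Selmer group is treated as in `MP_ac3185_nt.ParityAllTwoExtensions`: the Selmer group over
`K` of a twist of the curve, with weaker local conditions which do not depend on `M`, is zero, and
`Gal(M / K)` is a 2-group. The root number: in the product of the local root numbers only the primes `v` of
`M` matter which are stable under `Gal(M / K)`. The discriminant `Δ` of the cubic polynomial is not divisible
by the square of a prime outside `S`, so at such a prime of bad reduction the reduction is multiplicative,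
and it is split because the residue degree is even. So the root number is `(-1) ^ n`, `n` the number of the
primes `u` of `K` which divide `Δ` exactly and are inert in the quadratic subextension `K(√d)` of `M / K`.
This number is even by the quadratic reciprocity law of the number field `K` for `d` and `± Δ`: the
symbols of the other places are trivial; at a ramified prime of `M` this is because the discriminant of an
irreducible cubic polynomial over a finite field is a square. The reciprocity law (the product formula for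
the Hilbert symbols of a number field, for such `d` and `Δ`) is proved in `Pool.Agent.H25C.Rcp` (transfer
of Pfister forms to `ℚ`, and the reciprocity law of Gauss).

Earlier: `K = ℚ`, for one fixed `M` (cyclic or not): `MP_02f36d_nt.ParityOverTwoExtensions`; all `K`,
non-cyclic `M`: `MP_02f36d_nt.ParityTwoExtensionsNumberFields`. That the parity of the 2-infinity Selmer
rank over a quadratic extension agrees with the root number is known in many cases (Kramer, Tunnell,
Dokchitser-Dokchitser). New: the unconditional parity conjecture for a positive proportion of the curves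
over a number field `K ≠ ℚ`, in cyclic extensions, and all the extensions of the class at the same time.
-/

set_option autoImplicit false
set_option linter.all false

namespace Pool.Agent.Results.MP_02f36d_nt.ParityCyclicNumberFields

open Filter NumberField IsDedekindDomain
open scoped Classical

section family

variable (K : Type) [Field K] [NumberField K]

/-- The minimal equations of elliptic curves over `K`: pairs of integers `(A, B)` of `K` with
`4 A ^ 3 + 27 B ^ 2 ≠ 0` for which no nonzero prime ideal `𝔭` satisfies both `A ∈ 𝔭 ^ 4` and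
`B ∈ 𝔭 ^ 6`. -/
def Family : Set (𝓞 K × 𝓞 K) :=
  {p | 4 * p.1 ^ 3 + 27 * p.2 ^ 2 ≠ 0 ∧
    ∀ 𝔭 : Ideal (𝓞 K), 𝔭.IsPrime → 𝔭 ≠ ⊥ → ¬ (p.1 ∈ 𝔭 ^ 4 ∧ p.2 ∈ 𝔭 ^ 6)}

variable {K}

/-- The height `max_σ max (4 |σ A|³, 27 |σ B|²)`, over the embeddings `σ : K → ℂ`. -/
noncomputable def height (p : 𝓞 K × 𝓞 K) : ℝ :=
  ⨆ σ : K →+* ℂ, max (4 * ‖σ (p.1 : K)‖ ^ 3) (27 * ‖σ (p.2 : K)‖ ^ 2)

variable (K)

/-- The members of the family of height at most `X`. -/
def Curves (X : ℝ) : Set (𝓞 K × 𝓞 K) := {p ∈ Family K | height p ≤ X}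

variable {K}

/-- The curve `y ^ 2 = x ^ 3 + A x + B` over `K`. -/
def curve (p : 𝓞 K × 𝓞 K) : WeierstrassCurve K := ⟨0, 0, 0, (p.1 : K), (p.2 : K)⟩

/-- The polynomial `x ^ 3 + A x + B` is irreducible modulo the prime ideal `𝔭`. -/
def IrreducibleMod (𝔭 : Ideal (𝓞 K)) (p : 𝓞 K × 𝓞 K) : Prop :=
  Irreducible (Polynomial.X ^ 3 + Polynomial.C (Ideal.Quotient.mk 𝔭 p.1) * Polynomial.X +
    Polynomial.C (Ideal.Quotient.mk 𝔭 p.2))

end family

section cls

variable {K : Type} [Field K] [NumberField K] (M : Type) [Field M] [NumberField M] [Algebra K M]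

/-- The prime `v` of `M` is unramified over `K`, for `M / K` Galois: no automorphism other than the
identity is the identity modulo `v`. -/
def UnramifiedAt (v : HeightOneSpectrum (𝓞 M)) : Prop :=
  ∀ σ : M ≃ₐ[K] M, (∀ x : 𝓞 M, σ • x - x ∈ v.asIdeal) → σ = 1

/-- The prime `v` of `M` is split over `K`, for `M / K` Galois: no automorphism other than the identity
maps `v` to itself. -/
def SplitAt (v : HeightOneSpectrum (𝓞 M)) : Prop :=
  ∀ σ : M ≃ₐ[K] M, (∀ x : M, v.valuation M (σ x) = v.valuation M x) → σ = 1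

/-- The class `𝓔(A, B, S)` of Galois extensions `M / K`. -/
structure InClass (S : Finset ℕ) (p : 𝓞 K × 𝓞 K) : Prop where
  degree : ∃ n : ℕ, Module.finrank K M = 2 ^ n
  two : ∀ u : HeightOneSpectrum (𝓞 K), (2 : 𝓞 K) ∈ u.asIdeal →
    Nonempty (M →ₐ[K] u.adicCompletion K)
  infinite : IsUnramifiedAtInfinitePlaces K M
  split : ∀ q ∈ S, ∀ v : HeightOneSpectrum (𝓞 M), (q : 𝓞 M) ∈ v.asIdeal → SplitAt (K := K) M v
  ramified : ∀ v : HeightOneSpectrum (𝓞 M), UnramifiedAt (K := K) M v ∨
    IrreducibleMod (v.asIdeal.under (𝓞 K)) p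

end cls

section defs

variable {K : Type} [Field K] [NumberField K] {M : Type} [Field M] [NumberField M] [Algebra K M]

/-- Good reduction at the prime `v` of `M`: there is a Weierstrass equation with coefficients integral
at `v` whose discriminant is a unit at `v`. -/
def GoodReduction (v : HeightOneSpectrum (𝓞 M)) (W : WeierstrassCurve M) : Prop :=
  ∃ C : WeierstrassCurve.VariableChange M,
    v.valuation M (C • W).a₁ ≤ 1 ∧ v.valuation M (C • W).a₂ ≤ 1 ∧ v.valuation M (C • W).a₃ ≤ 1 ∧
    v.valuation M (C • W).a₄ ≤ 1 ∧ v.valuation M (C • W).a₆ ≤ 1 ∧ v.valuation M (C • W).Δ = 1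

/-- Split multiplicative reduction at the prime `v` of `M`: there is a Weierstrass equation with
coefficients integral at `v` whose reduction has the singular point `(0, 0)`, which is a node (`b₂` is a
unit at `v`) with tangents `y = α x` defined over the residue field. -/
def SplitMultiplicative (v : HeightOneSpectrum (𝓞 M)) (W : WeierstrassCurve M) : Prop :=
  ∃ C : WeierstrassCurve.VariableChange M,
    v.valuation M (C • W).a₁ ≤ 1 ∧ v.valuation M (C • W).a₂ ≤ 1 ∧
    v.valuation M (C • W).a₃ < 1 ∧ v.valuation M (C • W).a₄ < 1 ∧ v.valuation M (C • W).a₆ < 1 ∧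
    v.valuation M (C • W).b₂ = 1 ∧
    ∃ α : M, v.valuation M α ≤ 1 ∧
      v.valuation M (α ^ 2 + (C • W).a₁ * α - (C • W).a₂) < 1

variable (M)

/-- The properties of the local root numbers `w(E / M_v)` at the primes `v` of `M`, for an elliptic
curve `E` over `K`, which we use: they are signs, `1` for good reduction, `-1` for split multiplicative
reduction, and the same for primes which are conjugate over `K`. -/
structure LocalRootNumbers (E : WeierstrassCurve K) (w : HeightOneSpectrum (𝓞 M) → ℤ) :
    Prop where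
  sign : ∀ v, w v = 1 ∨ w v = -1
  good : ∀ v, GoodReduction v (E.baseChange M) → w v = 1
  split : ∀ v, SplitMultiplicative v (E.baseChange M) → w v = -1
  conj : ∀ (σ : M ≃ₐ[K] M) (v v' : HeightOneSpectrum (𝓞 M)),
    (∀ x : M, v'.valuation M x = v.valuation M (σ x)) → w v' = w v

/-- The global root number: the product of the local root numbers at all places; it is `-1` at
every infinite place. -/
noncomputable def rootNumber (w : HeightOneSpectrum (𝓞 M) → ℤ) : ℤ :=
  (-1) ^ Nat.card (InfinitePlace M) * ∏ᶠ v, w v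

/-- The group `E(M)`. -/
abbrev Points (p : 𝓞 K × 𝓞 K) : Type := ((curve p).baseChange M).toAffine.Point

/-- The rank of `E(M)`. -/
noncomputable def rank (p : 𝓞 K × 𝓞 K) : ℕ := Module.finrank ℤ (Points M p)

/-- The parity conjecture holds for `E` over `M`, with a finite group `E(M)` of odd order and root
number `1`: for every system of local root numbers `(-1) ^ rank = w(E / M)`. -/
structure ParityHolds (p : 𝓞 K × 𝓞 K) : Prop where
  fin : Finite (Points M p)
  odd : Odd (Nat.card (Points M p))
  finite : ∀ w, LocalRootNumbers M (curve p) w → {v | w v ≠ 1}.Finite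
  one : ∀ w, LocalRootNumbers M (curve p) w → rootNumber M w = 1
  parity : ∀ w, LocalRootNumbers M (curve p) w → (-1) ^ rank M p = rootNumber M w

end defs

section tr

variable {K : Type} [Field K] [NumberField K] {M : Type} [Field M] [NumberField M] [Algebra K M]

theorem crv_iff (X : ℝ) (p : 𝓞 K × 𝓞 K) :
    Pool.Agent.N783.PF.Crv X p ↔ p ∈ Curves K X := by
  have hb : BddAbove (Set.range fun σ : K →+* ℂ =>
      max (4 * ‖σ (p.1 : K)‖ ^ 3) (27 * ‖σ (p.2 : K)‖ ^ 2)) := Set.Finite.bddAbove (Set.finite_range _)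
  constructor
  · rintro ⟨h1, h2, h3⟩
    refine ⟨⟨h1, h2⟩, ciSup_le fun σ => max_le (h3 σ).1 (h3 σ).2⟩
  · rintro ⟨⟨h1, h2⟩, h3⟩
    refine ⟨h1, h2, fun σ => ?_⟩
    have h4 := (le_ciSup hb σ).trans h3
    exact ⟨(le_max_left _ _).trans h4, (le_max_right _ _).trans h4⟩

theorem rank_zero (p : 𝓞 K × 𝓞 K) (h : Finite (Points M p)) : rank M p = 0 := by
  unfold rank
  haveI := h
  refine Module.finrank_eq_zero_of_rank_eq_zero ?_
  rw [rank_eq_zero_iff]
  intro x
  refine ⟨(Nat.card (Points M p) : ℤ), by exact_mod_cast Nat.card_pos.ne', ?_⟩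
  rw [natCast_zsmul]
  exact card_nsmul_eq_zero'

/-- Good reduction at the primes not over `2` modulo which the polynomial is separable. -/
theorem good_red (p : 𝓞 K × 𝓞 K) (v : HeightOneSpectrum (𝓞 M)) (h2 : (2 : 𝓞 M) ∉ v.asIdeal)
    (hs : (Pool.Agent.N783.PF.rd v.asIdeal
      (Pool.Agent.H25P.fM M (Pool.Agent.N61.PF.pol p.1 p.2))).Separable) :
    GoodReduction v ((curve p).baseChange M) := by
  letI : Field (𝓞 M ⧸ v.asIdeal) := @Ideal.Quotient.field _ _ v.asIdeal v.isMaximal
  set a : 𝓞 M := algebraMap (𝓞 K) (𝓞 M) p.1 with ha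
  set b : 𝓞 M := algebraMap (𝓞 K) (𝓞 M) p.2 with hb
  have h2' : (2 : 𝓞 M ⧸ v.asIdeal) ≠ 0 := by
    intro h0
    apply h2
    rw [← Ideal.Quotient.eq_zero_iff_mem, map_ofNat]
    exact h0
  have e : Pool.Agent.N783.PF.rd v.asIdeal
      (Pool.Agent.H25P.fM M (Pool.Agent.N61.PF.pol p.1 p.2)) =
      Polynomial.X ^ 3 + Polynomial.C (Ideal.Quotient.mk v.asIdeal a) * Polynomial.X +
        Polynomial.C (Ideal.Quotient.mk v.asIdeal b) := by
    unfold Pool.Agent.N783.PF.rd Pool.Agent.H25P.fM Pool.Agent.N61.PF.pol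
    simp only [Polynomial.map_add, Polynomial.map_mul, Polynomial.map_pow, Polynomial.map_X,
      Polynomial.map_C, ha, hb]
  rw [e] at hs
  have hd := Pool.Agent.H25P.disc_of_sep h2' hs
  have hd' : 4 * a ^ 3 + 27 * b ^ 2 ∉ v.asIdeal := by
    intro h0
    apply hd
    rw [← Ideal.Quotient.eq_zero_iff_mem] at h0
    rw [← h0]
    simp only [map_add, map_mul, map_pow, map_ofNat]
  have hint : ∀ x : 𝓞 M, v.valuation M (x : M) ≤ 1 := v.valuation_le_one
  have hunit : ∀ x : 𝓞 M, x ∉ v.asIdeal → v.valuation M (x : M) = 1 := by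
    intro x hx
    refine le_antisymm (hint x) (not_lt.1 fun h => hx ?_)
    exact (v.valuation_lt_one_iff_mem (K := M) x).1 h
  have ha' : algebraMap K M (p.1 : K) = (a : M) := rfl
  have hb' : algebraMap K M (p.2 : K) = (b : M) := rfl
  have h1 : ((curve p).baseChange M).a₁ = 0 := by simp [curve, WeierstrassCurve.baseChange]
  have h2'' : ((curve p).baseChange M).a₂ = 0 := by simp [curve, WeierstrassCurve.baseChange]
  have h3 : ((curve p).baseChange M).a₃ = 0 := by simp [curve, WeierstrassCurve.baseChange]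
  have h4 : ((curve p).baseChange M).a₄ = (a : M) := by
    simp [curve, WeierstrassCurve.baseChange, ha']
  have h6 : ((curve p).baseChange M).a₆ = (b : M) := by
    simp [curve, WeierstrassCurve.baseChange, hb']
  have hΔ : ((curve p).baseChange M).Δ =
      ((-(2 ^ 4 * (4 * a ^ 3 + 27 * b ^ 2)) : 𝓞 M) : M) := by
    rw [WeierstrassCurve.Δ, WeierstrassCurve.b₂, WeierstrassCurve.b₄, WeierstrassCurve.b₆,
      WeierstrassCurve.b₈, h1, h2'', h3, h4, h6]
    have e5 : algebraMap (𝓞 M) M (-(2 ^ 4 * (4 * a ^ 3 + 27 * b ^ 2))) =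
        -(2 ^ 4 * (4 * (a : M) ^ 3 + 27 * (b : M) ^ 2)) := by
      simp only [map_neg, map_mul, map_add, map_pow, map_ofNat]
    refine Eq.trans ?_ e5.symm
    ring
  refine ⟨1, ?_⟩
  rw [one_smul, h1, h2'', h3, h4, h6, hΔ]
  refine ⟨by simp, by simp, by simp, hint a, hint b, hunit _ ?_⟩
  intro h0
  rw [Ideal.neg_mem_iff] at h0
  rcases v.isPrime.mem_or_mem h0 with h | h
  · exact h2 (v.isPrime.mem_of_pow_mem _ h)
  · exact hd' h

/-- Split multiplicative reduction at the primes not over `2` modulo which the polynomial has a double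
root with rational tangents. -/
theorem split_red (p : 𝓞 K × 𝓞 K) (v : HeightOneSpectrum (𝓞 M)) (h2 : (2 : 𝓞 M) ∉ v.asIdeal)
    (r s : 𝓞 M ⧸ v.asIdeal) (h : Polynomial (𝓞 M ⧸ v.asIdeal))
    (hs : Pool.Agent.N783.PF.rd v.asIdeal
      (Pool.Agent.H25P.fM M (Pool.Agent.N61.PF.pol p.1 p.2)) =
        (Polynomial.X - Polynomial.C r) ^ 2 * h) (hev : h.eval r = s ^ 2) (hs0 : s ≠ 0) :
    SplitMultiplicative v ((curve p).baseChange M) := by
  letI : Field (𝓞 M ⧸ v.asIdeal) := @Ideal.Quotient.field _ _ v.asIdeal v.isMaximal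
  set a : 𝓞 M := algebraMap (𝓞 K) (𝓞 M) p.1 with ha
  set b : 𝓞 M := algebraMap (𝓞 K) (𝓞 M) p.2 with hb
  have e : Pool.Agent.N783.PF.rd v.asIdeal
      (Pool.Agent.H25P.fM M (Pool.Agent.N61.PF.pol p.1 p.2)) =
      Polynomial.X ^ 3 + Polynomial.C (Ideal.Quotient.mk v.asIdeal a) * Polynomial.X +
        Polynomial.C (Ideal.Quotient.mk v.asIdeal b) := by
    unfold Pool.Agent.N783.PF.rd Pool.Agent.H25P.fM Pool.Agent.N61.PF.pol
    simp only [Polynomial.map_add, Polynomial.map_mul, Polynomial.map_pow, Polynomial.map_X,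
      Polynomial.map_C, ha, hb]
  rw [e] at hs
  obtain ⟨hA, hB, h3⟩ := Pool.Agent.H25C.node3 hs hev
  obtain ⟨r, rfl⟩ := Ideal.Quotient.mk_surjective r
  obtain ⟨s, rfl⟩ := Ideal.Quotient.mk_surjective s
  have hint : ∀ x : 𝓞 M, v.valuation M (x : M) ≤ 1 := v.valuation_le_one
  have hlt : ∀ x : 𝓞 M, x ∈ v.asIdeal → v.valuation M (x : M) < 1 := fun x hx =>
    (v.valuation_lt_one_iff_mem (K := M) x).2 hx
  have hunit : ∀ x : 𝓞 M, x ∉ v.asIdeal → v.valuation M (x : M) = 1 := by
    intro x hx
    refine le_antisymm (hint x) (not_lt.1 fun h => hx ?_)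
    exact (v.valuation_lt_one_iff_mem (K := M) x).1 h
  have hs' : s ∉ v.asIdeal := fun h => hs0 (Ideal.Quotient.eq_zero_iff_mem.2 h)
  have m3 : 3 * r - s ^ 2 ∈ v.asIdeal := by
    rw [← Ideal.Quotient.eq, map_mul, map_pow, map_ofNat]
    exact h3
  have mA : 3 * r ^ 2 + a ∈ v.asIdeal := by
    rw [← Ideal.Quotient.eq_zero_iff_mem, map_add, map_mul, map_pow, map_ofNat, hA]
    ring
  have mB : r ^ 3 + a * r + b ∈ v.asIdeal := by
    rw [← Ideal.Quotient.eq_zero_iff_mem, map_add, map_add, map_mul, map_pow, hA, hB]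
    ring
  have ha' : algebraMap K M (p.1 : K) = (a : M) := rfl
  have hb' : algebraMap K M (p.2 : K) = (b : M) := rfl
  have h1 : ((curve p).baseChange M).a₁ = 0 := by simp [curve, WeierstrassCurve.baseChange]
  have h2'' : ((curve p).baseChange M).a₂ = 0 := by simp [curve, WeierstrassCurve.baseChange]
  have h3' : ((curve p).baseChange M).a₃ = 0 := by simp [curve, WeierstrassCurve.baseChange]
  have h4 : ((curve p).baseChange M).a₄ = (a : M) := by
    simp [curve, WeierstrassCurve.baseChange, ha']
  have h6 : ((curve p).baseChange M).a₆ = (b : M) := by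
    simp [curve, WeierstrassCurve.baseChange, hb']
  set V : WeierstrassCurve.VariableChange M := ⟨1, (r : M), 0, 0⟩ with hV
  have k1 : (V • (curve p).baseChange M).a₁ = 0 := by
    rw [WeierstrassCurve.variableChange_a₁, h1, hV]
    simp
  have k2 : (V • (curve p).baseChange M).a₂ = ((3 * r : 𝓞 M) : M) := by
    rw [WeierstrassCurve.variableChange_a₂, h1, h2'', hV]
    have e5 : algebraMap (𝓞 M) M (3 * r) = 3 * (r : M) := by simp only [map_mul, map_ofNat]
    refine Eq.trans ?_ e5.symm
    simp
  have k3 : (V • (curve p).baseChange M).a₃ = 0 := by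
    rw [WeierstrassCurve.variableChange_a₃, h1, h3', hV]
    simp
  have k4 : (V • (curve p).baseChange M).a₄ = ((3 * r ^ 2 + a : 𝓞 M) : M) := by
    rw [WeierstrassCurve.variableChange_a₄, h1, h2'', h3', h4, hV]
    have e5 : algebraMap (𝓞 M) M (3 * r ^ 2 + a) = 3 * (r : M) ^ 2 + (a : M) := by
      simp only [map_mul, map_ofNat, map_add, map_pow]
    refine Eq.trans ?_ e5.symm
    simp
    ring
  have k6 : (V • (curve p).baseChange M).a₆ = ((r ^ 3 + a * r + b : 𝓞 M) : M) := by
    rw [WeierstrassCurve.variableChange_a₆, h1, h2'', h3', h4, h6, hV]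
    have e5 : algebraMap (𝓞 M) M (r ^ 3 + a * r + b) = (r : M) ^ 3 + (a : M) * r + (b : M) := by
      simp only [map_mul, map_add, map_pow]
    refine Eq.trans ?_ e5.symm
    simp
    ring
  have kb : (V • (curve p).baseChange M).b₂ = ((2 ^ 2 * (3 * r) : 𝓞 M) : M) := by
    rw [WeierstrassCurve.b₂, k1, k2]
    have e5 : algebraMap (𝓞 M) M (2 ^ 2 * (3 * r)) = 2 ^ 2 * ((3 * r : 𝓞 M) : M) := by
      rw [map_mul, map_pow, map_ofNat]
    refine Eq.trans ?_ e5.symm
    ring
  refine ⟨V, ?_⟩
  rw [k1, k2, k3, k4, k6, kb]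
  refine ⟨by simp, hint _, by simp, hlt _ mA, hlt _ mB, hunit _ ?_, (s : M), hint s, ?_⟩
  · intro h0
    rcases v.isPrime.mem_or_mem h0 with h | h
    · exact h2 (v.isPrime.mem_of_pow_mem _ h)
    · have h5 : s ^ 2 ∈ v.asIdeal := by
        have := Ideal.sub_mem _ h m3
        rwa [sub_sub_cancel] at this
      exact hs' (v.isPrime.mem_of_pow_mem _ h5)
  · have e6 : (s : M) ^ 2 + 0 * (s : M) - ((3 * r : 𝓞 M) : M) =
        ((-(3 * r - s ^ 2) : 𝓞 M) : M) := by
      have e5 : algebraMap (𝓞 M) M (-(3 * r - s ^ 2)) =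
          -(((3 * r : 𝓞 M) : M) - (s : M) ^ 2) := by
        rw [map_neg, map_sub, map_pow]
      refine Eq.trans ?_ e5.symm
      ring
    rw [e6]
    exact hlt _ (Ideal.neg_mem_iff _ |>.2 m3)

/-- The class in the two forms. -/
theorem inClass_iff (S : Finset ℕ) (p : 𝓞 K × 𝓞 K) :
    InClass M S p ↔ Pool.Agent.H25U.InCl K S (Pool.Agent.N61.PF.pol p.1 p.2) M := by
  have e : ∀ 𝔭 : Ideal (𝓞 K), IrreducibleMod 𝔭 p ↔
      Irreducible (Pool.Agent.N783.PF.rd 𝔭 (Pool.Agent.N61.PF.pol p.1 p.2)) := by
    intro 𝔭
    unfold IrreducibleMod Pool.Agent.N783.PF.rd Pool.Agent.N61.PF.pol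
    simp only [Polynomial.map_add, Polynomial.map_mul, Polynomial.map_pow, Polynomial.map_X,
      Polynomial.map_C]
  exact ⟨fun h => ⟨h.1, h.2, h.3, h.4, fun v => (h.5 v).imp id (e _).1⟩,
    fun h => ⟨h.1, h.2, h.3, h.4, fun v => (h.5 v).imp id (e _).2⟩⟩

end tr

/-- Let `K` be a number field, let `M₀ / K` be a Galois extension of degree `2 ^ n` in which all primes
`u` of `K` over `2` split completely (`M₀` has an embedding over `K` in `K_u`) and which is unramified at
the infinite places, and let `N₀` be a natural number. There are a finite set `S` of prime numbers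
`> N₀` and `c > 0` such that for all large `X` at least `c` times the number of all elliptic curves
`E : y ^ 2 = x ^ 3 + A x + B` over `K` (minimal equations) of height at most `X` satisfy:
`x ^ 3 + A x + B` is irreducible modulo all primes which divide `N₀!`, `M₀` is in the class
`𝓔(A, B, S)`, and for every cyclic extension `M ≠ K` in the class `𝓔(A, B, S)` the parity conjecture
holds over `M`, `(-1) ^ rk E(M) = w(E / M)`, with `E(M)` finite of odd order and `w(E / M) = 1`. -/
theorem result (K M₀ : Type) [Field K] [NumberField K] [Field M₀] [NumberField M₀] [Algebra K M₀]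
    [IsGalois K M₀] (hn : ∃ n : ℕ, Module.finrank K M₀ = 2 ^ n)
    (h2 : ∀ u : HeightOneSpectrum (𝓞 K), (2 : 𝓞 K) ∈ u.asIdeal →
      Nonempty (M₀ →ₐ[K] u.adicCompletion K))
    (hinf : IsUnramifiedAtInfinitePlaces K M₀) (N₀ : ℕ) :
    ∃ S : Finset ℕ, (∀ q ∈ S, q.Prime ∧ N₀ < q) ∧
    ∃ c : ℝ, 0 < c ∧ ∀ᶠ X : ℝ in atTop, (Curves K X).Finite ∧
      0 < (Curves K X).ncard ∧
      c * ((Curves K X).ncard : ℝ) ≤ (({p ∈ Curves K X |
        (∀ 𝔭 : Ideal (𝓞 K), 𝔭.IsPrime → (N₀.factorial : 𝓞 K) ∈ 𝔭 → IrreducibleMod 𝔭 p) ∧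
        InClass M₀ S p ∧
        ∀ (M : Type) [Field M] [NumberField M] [Algebra K M] [IsGalois K M],
          InClass M S p → IsCyclic (M ≃ₐ[K] M) → Module.finrank K M ≠ 1 →
            ParityHolds M p}).ncard : ℝ) := by
  have hset : ∀ X : ℝ, Curves K X = {p : 𝓞 K × 𝓞 K | Pool.Agent.N783.PF.Crv X p} := by
    intro X
    ext p
    exact (crv_iff X p).symm
  obtain ⟨S, hS, c, hc, Y₀, h⟩ := Pool.Agent.H25C.finE K M₀ hn h2 hinf N₀
  have hfin : ∀ X : ℝ, (Curves K X).Finite := fun X => by
    rw [hset]
    exact (h X).1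
  refine ⟨S, hS, c, hc, ?_⟩
  filter_upwards [eventually_ge_atTop Y₀] with X hX
  obtain ⟨h3, h4⟩ := (h X).2 hX
  rw [← hset] at h3 h4
  refine ⟨hfin X, h3, h4.trans ?_⟩
  refine Nat.cast_le.2 (Set.ncard_le_ncard ?_ ((hfin X).subset fun p hp => hp.1))
  rintro p ⟨hp, hgd⟩
  refine ⟨(crv_iff X p).1 hp, fun 𝔭 h5 h6 => ?_, (inClass_iff S p).2 hgd.cl,
    fun M _ _ _ _ hM _ hnt => ?_⟩
  · have h7 := hgd.small 𝔭 h5 h6
    unfold Pool.Agent.N783.PF.rd Pool.Agent.N61.PF.pol at h7
    simp only [Polynomial.map_add, Polynomial.map_mul, Polynomial.map_pow, Polynomial.map_X,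
      Polynomial.map_C] at h7
    exact h7
  have hg := hgd.all M ((inClass_iff S p).1 hM)
  have key : ∀ W : WeierstrassCurve M,
      (Pool.Agent.N874.PP.sW (Pool.Agent.H25P.up' M p.1)
        (Pool.Agent.H25P.up' M p.2)).baseChange M = W →
      Finite W.toAffine.Point ∧ Odd (Nat.card W.toAffine.Point) := by
    rintro W rfl
    exact ⟨hg.fin, hg.odd⟩
  have e : (Pool.Agent.N874.PP.sW (Pool.Agent.H25P.up' M p.1)
      (Pool.Agent.H25P.up' M p.2)).baseChange M = (curve p).baseChange M := by
    apply WeierstrassCurve.ext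
    · simp [Pool.Agent.N874.PP.sW, curve, WeierstrassCurve.baseChange]
    · simp [Pool.Agent.N874.PP.sW, curve, WeierstrassCurve.baseChange]
    · simp [Pool.Agent.N874.PP.sW, curve, WeierstrassCurve.baseChange]
    · simp [Pool.Agent.N874.PP.sW, curve, WeierstrassCurve.baseChange]
      rfl
    · simp [Pool.Agent.N874.PP.sW, curve, WeierstrassCurve.baseChange]
      rfl
  obtain ⟨k1, k2⟩ := key _ e
  have tr : ∀ w, LocalRootNumbers M (curve p) w → Pool.Agent.H25C.SignsC K
      (Pool.Agent.H25P.fM M (Pool.Agent.N61.PF.pol p.1 p.2)) w := fun w hw =>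
    ⟨⟨hw.sign, fun v h5 h6 => hw.good v (good_red p v h5 h6), hw.conj⟩,
      fun v h5 a c t h6 _ h7 h8 => hw.split v (split_red p v h5 a c t h6 h7 h8)⟩
  have k3 : ∀ w, LocalRootNumbers M (curve p) w → rootNumber M w = 1 := by
    intro w hw
    have h5 := hg.root hnt w (tr w hw) 1
    rw [one_mul] at h5
    exact h5
  refine ⟨k1, k2, fun w hw => ?_, k3, fun w hw => ?_⟩
  · exact (tr w hw).toSigns.finite ((Pool.Agent.N61.PF.pol_monic p.1 p.2).map _) hg.irr
  · rw [k3 w hw, rank_zero p k1, pow_zero]

end Pool.Agent.Results.MP_02f36d_nt.ParityCyclicNumberFields
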