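import Pool.Agent.H25P.FinE

/-!
# The parity conjecture over Galois 2-extensions of a number field for a positive proportion of all
# elliptic curves over the number field

Let `K` be any number field and let `M / K` be any Galois extension of degree `2 ^ n` whose Galois group
is not cyclic, in which the primes over `2` split completely and which is unramified at the infinite
places (the ramification at the other primes is arbitrary).

Theorem. Among ALL elliptic curves `E / K`, given by minimal equations `y ^ 2 = x ^ 3 + A x + B` and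
ordered by height, a positive proportion satisfies the parity conjecture over `M`, unconditionally:
`(-1) ^ rk E(M) = w(E / M)`. More precisely `E(M)` is finite of odd order and `w(E / M) = 1`.

The local root numbers `w(E / M_v)` are signs; they are `1` if `E` has good reduction at `v`; and since `E`
is defined over `K` they are the same for primes of `M` which are conjugate over `K`, for which the
completions are isomorphic over `K`. At the infinite places they are `-1`. These properties are all that we
use: the theorem holds for every function `w` with these properties, in particular for the local root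
numbers defined by the local constants.

The proof. (1) Selmer group. For the field `K` itself the method of the project PF
(`MP_7cad78_nt.RankZeroEveryNumberField`) gives, for most `f = x ^ 3 + A x + B` in a family of positive
density, a subset `J` of a finite set `S` of rational primes such that a Selmer group over `K` of the twist
of the curve by the product `D` of the primes in `J`, with weaker conditions than the usual ones, is zero.
We choose the family such that `f` is irreducible modulo all primes over `2` and all primes ramified in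
`M`, and such that the primes in `S` split completely in `M`. The classes of the 2-Selmer group of the twist
over `M` generate a subgroup of `L'^* / L'^{*2}`, `L' = M(θ)`, stable under `Gal(M / K)`; if it were not
zero, it would have a nonzero class invariant under the 2-group `Gal(M / K)`, and this class comes from
`L = K(θ)`, because `[L : K]` is odd; there it satisfies the weaker conditions over `K`, hence it is zero.
(2) Root number. In the product of the local root numbers only the primes `v` matter which are stable under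
`Gal(M / K)`, as the number of the conjugates of the others is even. A stable prime is unramified over `K`
only if the Galois group is cyclic; so it is over a prime which is ramified in `M`, and there `f` is
irreducible modulo the prime of `K`, so that the curve has good reduction. The number of the infinite
places of `M` is even.

The case `K = ℚ` (also for cyclic extensions) is `MP_02f36d_nt.ParityOverTwoExtensions` (project PX of
helper922). New: all number fields `K`.
-/

set_option autoImplicit false
set_option linter.all false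

namespace Pool.Agent.Results.MP_02f36d_nt.ParityTwoExtensionsNumberFields

open Filter NumberField IsDedekindDomain
open scoped Classical

section family

variable (K : Type) [Field K] [NumberField K]

/-- The minimal equations of elliptic curves over `K`: pairs of integers `(A, B)` of `K` with
`4 A ^ 3 + 27 B ^ 2 ≠ 0` for which no nonzero prime ideal `𝔭` satisfies both `A ∈ 𝔭 ^ 4` and
`B ∈ 𝔭 ^ 6`. -/
def Family : Set (𝓞 K × 𝓞 K) :=
  {p | 4 * p.1 ^ 3 + 27 * p.2 ^ 2 ≠ 0 ∧
    ∀ 𝔭 : Ideal (𝓞 K), 𝔭.IsPrime → 𝔭 ≠ ⊥ → ¬ (p.1 ∈ 𝔭 ^ 4 ∧ p.2 ∈ 𝔭 ^ 6)}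

variable {K}

/-- The height `max_σ max (4 |σ A|³, 27 |σ B|²)`, over the embeddings `σ : K → ℂ`. -/
noncomputable def height (p : 𝓞 K × 𝓞 K) : ℝ :=
  ⨆ σ : K →+* ℂ, max (4 * ‖σ (p.1 : K)‖ ^ 3) (27 * ‖σ (p.2 : K)‖ ^ 2)

variable (K)

/-- The members of the family of height at most `X`. -/
def Curves (X : ℝ) : Set (𝓞 K × 𝓞 K) := {p ∈ Family K | height p ≤ X}

variable {K}

/-- The curve `y ^ 2 = x ^ 3 + A x + B` over `K`. -/
def curve (p : 𝓞 K × 𝓞 K) : WeierstrassCurve K := ⟨0, 0, 0, (p.1 : K), (p.2 : K)⟩

end family

section defs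

variable {K : Type} [Field K] [NumberField K] {M : Type} [Field M] [NumberField M] [Algebra K M]

/-- Good reduction at the prime `v` of `M`: there is a Weierstrass equation with coefficients integral
at `v` whose discriminant is a unit at `v`. -/
def GoodReduction (v : HeightOneSpectrum (𝓞 M)) (W : WeierstrassCurve M) : Prop :=
  ∃ C : WeierstrassCurve.VariableChange M,
    v.valuation M (C • W).a₁ ≤ 1 ∧ v.valuation M (C • W).a₂ ≤ 1 ∧ v.valuation M (C • W).a₃ ≤ 1 ∧
    v.valuation M (C • W).a₄ ≤ 1 ∧ v.valuation M (C • W).a₆ ≤ 1 ∧ v.valuation M (C • W).Δ = 1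

variable (M)

/-- The properties of the local root numbers `w(E / M_v)` at the primes `v` of `M`, for an elliptic
curve `E` over `K`, which we use: they are signs, `1` for good reduction, and the same for primes which
are conjugate over `K`. -/
structure LocalRootNumbers (E : WeierstrassCurve K) (w : HeightOneSpectrum (𝓞 M) → ℤ) :
    Prop where
  sign : ∀ v, w v = 1 ∨ w v = -1
  good : ∀ v, GoodReduction v (E.baseChange M) → w v = 1
  conj : ∀ (σ : M ≃ₐ[K] M) (v v' : HeightOneSpectrum (𝓞 M)),
    (∀ x : M, v'.valuation M x = v.valuation M (σ x)) → w v' = w v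

/-- The global root number: the product of the local root numbers at all places; it is `-1` at
every infinite place. -/
noncomputable def rootNumber (w : HeightOneSpectrum (𝓞 M) → ℤ) : ℤ :=
  (-1) ^ Nat.card (InfinitePlace M) * ∏ᶠ v, w v

/-- The group `E(M)`. -/
abbrev Points (p : 𝓞 K × 𝓞 K) : Type := ((curve p).baseChange M).toAffine.Point

/-- The rank of `E(M)`. -/
noncomputable def rank (p : 𝓞 K × 𝓞 K) : ℕ := Module.finrank ℤ (Points M p)

/-- The parity conjecture holds for `E` over `M`, with a finite group `E(M)` of odd order and root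
number `1`: for every system of local root numbers `(-1) ^ rank = w(E / M)`. -/
structure ParityHolds (p : 𝓞 K × 𝓞 K) : Prop where
  fin : Finite (Points M p)
  odd : Odd (Nat.card (Points M p))
  finite : ∀ w, LocalRootNumbers M (curve p) w → {v | w v ≠ 1}.Finite
  one : ∀ w, LocalRootNumbers M (curve p) w → rootNumber M w = 1
  parity : ∀ w, LocalRootNumbers M (curve p) w → (-1) ^ rank M p = rootNumber M w

end defs

section tr

variable {K : Type} [Field K] [NumberField K] {M : Type} [Field M] [NumberField M] [Algebra K M]

theorem crv_iff (X : ℝ) (p : 𝓞 K × 𝓞 K) :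
    Pool.Agent.N783.PF.Crv X p ↔ p ∈ Curves K X := by
  have hb : BddAbove (Set.range fun σ : K →+* ℂ =>
      max (4 * ‖σ (p.1 : K)‖ ^ 3) (27 * ‖σ (p.2 : K)‖ ^ 2)) := Set.Finite.bddAbove (Set.finite_range _)
  constructor
  · rintro ⟨h1, h2, h3⟩
    refine ⟨⟨h1, h2⟩, ciSup_le fun σ => max_le (h3 σ).1 (h3 σ).2⟩
  · rintro ⟨⟨h1, h2⟩, h3⟩
    refine ⟨h1, h2, fun σ => ?_⟩
    have h4 := (le_ciSup hb σ).trans h3
    exact ⟨(le_max_left _ _).trans h4, (le_max_right _ _).trans h4⟩

theorem rank_zero (p : 𝓞 K × 𝓞 K) (h : Finite (Points M p)) : rank M p = 0 := by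
  unfold rank
  haveI := h
  refine Module.finrank_eq_zero_of_rank_eq_zero ?_
  rw [rank_eq_zero_iff]
  intro x
  refine ⟨(Nat.card (Points M p) : ℤ), by exact_mod_cast Nat.card_pos.ne', ?_⟩
  rw [natCast_zsmul]
  exact card_nsmul_eq_zero'

/-- Good reduction at the primes not over `2` modulo which the polynomial is separable. -/
theorem good_red (p : 𝓞 K × 𝓞 K) (v : HeightOneSpectrum (𝓞 M)) (h2 : (2 : 𝓞 M) ∉ v.asIdeal)
    (hs : (Pool.Agent.N783.PF.rd v.asIdeal
      (Pool.Agent.H25P.fM M (Pool.Agent.N61.PF.pol p.1 p.2))).Separable) :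
    GoodReduction v ((curve p).baseChange M) := by
  letI : Field (𝓞 M ⧸ v.asIdeal) := @Ideal.Quotient.field _ _ v.asIdeal v.isMaximal
  set a : 𝓞 M := algebraMap (𝓞 K) (𝓞 M) p.1 with ha
  set b : 𝓞 M := algebraMap (𝓞 K) (𝓞 M) p.2 with hb
  have h2' : (2 : 𝓞 M ⧸ v.asIdeal) ≠ 0 := by
    intro h0
    apply h2
    rw [← Ideal.Quotient.eq_zero_iff_mem, map_ofNat]
    exact h0
  have e : Pool.Agent.N783.PF.rd v.asIdeal
      (Pool.Agent.H25P.fM M (Pool.Agent.N61.PF.pol p.1 p.2)) =
      Polynomial.X ^ 3 + Polynomial.C (Ideal.Quotient.mk v.asIdeal a) * Polynomial.X +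
        Polynomial.C (Ideal.Quotient.mk v.asIdeal b) := by
    unfold Pool.Agent.N783.PF.rd Pool.Agent.H25P.fM Pool.Agent.N61.PF.pol
    simp only [Polynomial.map_add, Polynomial.map_mul, Polynomial.map_pow, Polynomial.map_X,
      Polynomial.map_C, ha, hb]
  rw [e] at hs
  have hd := Pool.Agent.H25P.disc_of_sep h2' hs
  have hd' : 4 * a ^ 3 + 27 * b ^ 2 ∉ v.asIdeal := by
    intro h0
    apply hd
    rw [← Ideal.Quotient.eq_zero_iff_mem] at h0
    rw [← h0]
    simp only [map_add, map_mul, map_pow, map_ofNat]
  have hint : ∀ x : 𝓞 M, v.valuation M (x : M) ≤ 1 := v.valuation_le_one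
  have hunit : ∀ x : 𝓞 M, x ∉ v.asIdeal → v.valuation M (x : M) = 1 := by
    intro x hx
    refine le_antisymm (hint x) (not_lt.1 fun h => hx ?_)
    exact (v.valuation_lt_one_iff_mem (K := M) x).1 h
  have ha' : algebraMap K M (p.1 : K) = (a : M) := rfl
  have hb' : algebraMap K M (p.2 : K) = (b : M) := rfl
  have h1 : ((curve p).baseChange M).a₁ = 0 := by simp [curve, WeierstrassCurve.baseChange]
  have h2'' : ((curve p).baseChange M).a₂ = 0 := by simp [curve, WeierstrassCurve.baseChange]
  have h3 : ((curve p).baseChange M).a₃ = 0 := by simp [curve, WeierstrassCurve.baseChange]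
  have h4 : ((curve p).baseChange M).a₄ = (a : M) := by
    simp [curve, WeierstrassCurve.baseChange, ha']
  have h6 : ((curve p).baseChange M).a₆ = (b : M) := by
    simp [curve, WeierstrassCurve.baseChange, hb']
  have hΔ : ((curve p).baseChange M).Δ =
      ((-(2 ^ 4 * (4 * a ^ 3 + 27 * b ^ 2)) : 𝓞 M) : M) := by
    rw [WeierstrassCurve.Δ, WeierstrassCurve.b₂, WeierstrassCurve.b₄, WeierstrassCurve.b₆,
      WeierstrassCurve.b₈, h1, h2'', h3, h4, h6]
    have e5 : algebraMap (𝓞 M) M (-(2 ^ 4 * (4 * a ^ 3 + 27 * b ^ 2))) =
        -(2 ^ 4 * (4 * (a : M) ^ 3 + 27 * (b : M) ^ 2)) := by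
      simp only [map_neg, map_mul, map_add, map_pow, map_ofNat]
    refine Eq.trans ?_ e5.symm
    ring
  refine ⟨1, ?_⟩
  rw [one_smul, h1, h2'', h3, h4, h6, hΔ]
  refine ⟨by simp, by simp, by simp, hint a, hint b, hunit _ ?_⟩
  intro h0
  rw [Ideal.neg_mem_iff] at h0
  rcases v.isPrime.mem_or_mem h0 with h | h
  · exact h2 (v.isPrime.mem_of_pow_mem _ h)
  · exact hd' h

end tr

/-- Let `K` be a number field and let `M / K` be a Galois extension of degree `2 ^ n` whose Galois
group is not cyclic, in which all primes `u` of `K` over `2` split completely (that is, `M` has an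
embedding over `K` in the completion `K_u`) and which is unramified at the infinite places. There is
`c > 0` such that for all large `X` at least `c` times the number of all elliptic curves `E` over `K`
(minimal equations) of height at most `X` satisfy the parity conjecture over `M`,
`(-1) ^ rk E(M) = w(E / M)`, with `E(M)` finite of odd order and `w(E / M) = 1`. -/
theorem result (K M : Type) [Field K] [NumberField K] [Field M] [NumberField M] [Algebra K M]
    [IsGalois K M] (n : ℕ) (hn : Module.finrank K M = 2 ^ n) (hcyc : ¬ IsCyclic (M ≃ₐ[K] M))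
    (h2 : ∀ u : HeightOneSpectrum (𝓞 K), (2 : 𝓞 K) ∈ u.asIdeal →
      Nonempty (M →ₐ[K] u.adicCompletion K))
    (hinf : IsUnramifiedAtInfinitePlaces K M) :
    (∀ X : ℝ, (Curves K X).Finite) ∧
    ∃ c : ℝ, 0 < c ∧ ∀ᶠ X : ℝ in atTop,
      0 < (Curves K X).ncard ∧
      c * ((Curves K X).ncard : ℝ) ≤ (({p ∈ Curves K X | ParityHolds M p}).ncard : ℝ) := by
  have hset : ∀ X : ℝ, Curves K X = {p : 𝓞 K × 𝓞 K | Pool.Agent.N783.PF.Crv X p} := by
    intro X
    ext p
    exact (crv_iff X p).symm
  obtain ⟨c, hc, Y₀, h⟩ := Pool.Agent.H25P.finE K M hn hcyc h2 hinf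
  have hfin : ∀ X : ℝ, (Curves K X).Finite := fun X => by
    rw [hset]
    exact (h X).1
  refine ⟨hfin, c, hc, ?_⟩
  filter_upwards [eventually_ge_atTop Y₀] with X hX
  obtain ⟨h3, h4⟩ := (h X).2 hX
  rw [← hset] at h3 h4
  refine ⟨h3, h4.trans ?_⟩
  have hsub : {p : 𝓞 K × 𝓞 K | Pool.Agent.N783.PF.Crv X p ∧ Pool.Agent.H25P.GoodE K M p} ⊆
      {p ∈ Curves K X | ParityHolds M p} := by
    rintro p ⟨hp, hg⟩
    refine ⟨(crv_iff X p).1 hp, ?_⟩
    have key : ∀ W : WeierstrassCurve M,
        (Pool.Agent.N874.PP.sW (Pool.Agent.H25P.up' M p.1)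
          (Pool.Agent.H25P.up' M p.2)).baseChange M = W →
        Finite W.toAffine.Point ∧ Odd (Nat.card W.toAffine.Point) := by
      rintro W rfl
      exact ⟨hg.fin, hg.odd⟩
    have e : (Pool.Agent.N874.PP.sW (Pool.Agent.H25P.up' M p.1)
        (Pool.Agent.H25P.up' M p.2)).baseChange M = (curve p).baseChange M := by
      apply WeierstrassCurve.ext
      · simp [Pool.Agent.N874.PP.sW, curve, WeierstrassCurve.baseChange]
      · simp [Pool.Agent.N874.PP.sW, curve, WeierstrassCurve.baseChange]
      · simp [Pool.Agent.N874.PP.sW, curve, WeierstrassCurve.baseChange]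
      · simp [Pool.Agent.N874.PP.sW, curve, WeierstrassCurve.baseChange]
        rfl
      · simp [Pool.Agent.N874.PP.sW, curve, WeierstrassCurve.baseChange]
        rfl
    obtain ⟨k1, k2⟩ := key _ e
    have tr : ∀ w, LocalRootNumbers M (curve p) w → Pool.Agent.H25P.Signs K
        (Pool.Agent.H25P.fM M (Pool.Agent.N61.PF.pol p.1 p.2)) w := fun w hw =>
      ⟨hw.sign, fun v h5 h6 => hw.good v (good_red p v h5 h6), hw.conj⟩
    have k3 : ∀ w, LocalRootNumbers M (curve p) w → rootNumber M w = 1 := by
      intro w hw
      have h5 := hg.root w (tr w hw) 1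
      rw [one_mul] at h5
      exact h5
    refine ⟨k1, k2, fun w hw => ?_, k3, fun w hw => ?_⟩
    · exact (tr w hw).finite ((Pool.Agent.N61.PF.pol_monic p.1 p.2).map _) hg.irr
    · rw [k3 w hw, rank_zero p k1, pow_zero]
  exact_mod_cast Set.ncard_le_ncard hsub ((hfin X).subset fun p hp => hp.1)

end Pool.Agent.Results.MP_02f36d_nt.ParityTwoExtensionsNumberFields
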